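import Mathlib
import Pool.Agent.H319R2.Orbit

set_option autoImplicit false

/-!
Uniform statements on the trajectories of natural numbers under the accelerated `3x+1` map and under the
Collatz map: sizes of the terms in terms of the number of odd terms, and the number of small terms.
-/

namespace Pool.Agent.R469.Rig

open Finset

/-- the accelerated `3x+1` map -/
def T (n : ℕ) : ℕ := if n % 2 = 0 then n / 2 else (3 * n + 1) / 2

/-- the number of the odd terms among `n, T n, ..., T^(k-1) n` -/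
def odds (k n : ℕ) : ℕ := ((Finset.range k).filter fun i => T^[i] n % 2 = 1).card

theorem T_cast1 (n : ℕ) : Pool.Agent.H319R2.T (n : ℤ) = ((T n : ℕ) : ℤ) := by
  unfold Pool.Agent.H319R2.T T
  rcases Nat.mod_two_eq_zero_or_one n with h | h
  · rw [if_pos (by omega), if_pos h]; omega
  · rw [if_neg (by omega), if_neg (by omega)]; omega

theorem T_cast (k n : ℕ) : Pool.Agent.H319R2.T^[k] (n : ℤ) = ((T^[k] n : ℕ) : ℤ) := by
  induction k with
  | zero => rfl
  | succ k ih => rw [Function.iterate_succ_apply', Function.iterate_succ_apply', ih, T_cast1]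

theorem od_cast (k n : ℕ) : Pool.Agent.H319R2.od k (n : ℤ) = odds k n := by
  unfold Pool.Agent.H319R2.od odds
  congr 1
  apply Finset.filter_congr
  intro i _
  rw [T_cast]
  omega

theorem T_even {n : ℕ} (h : n % 2 = 0) : 2 * T n = n := by unfold T; rw [if_pos h]; omega

theorem T_odd {n : ℕ} (h : n % 2 = 1) : 2 * T n = 3 * n + 1 := by
  unfold T; rw [if_neg (by omega)]; omega

theorem T_pos {n : ℕ} (h : 1 ≤ n) : 1 ≤ T n := by
  unfold T
  split_ifs <;> omega

theorem iter_pos {n : ℕ} (h : 1 ≤ n) (k : ℕ) : 1 ≤ T^[k] n := by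
  induction k with
  | zero => exact h
  | succ k ih => rw [Function.iterate_succ_apply']; exact T_pos ih

theorem odds_zero (n : ℕ) : odds 0 n = 0 := by simp [odds]

theorem odds_succ (k n : ℕ) : odds (k + 1) n = odds k n + T^[k] n % 2 := by
  unfold odds
  rw [range_add_one, filter_insert]
  rcases Nat.mod_two_eq_zero_or_one (T^[k] n) with h | h
  · rw [if_neg (by omega)]; omega
  · rw [if_pos h, card_insert_of_notMem (by simp)]; omega

theorem odds_le (k n : ℕ) : odds k n ≤ k := by
  unfold odds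
  exact (card_filter_le _ _).trans (by simp)

/-- the lower bound `3 ^ o n ≤ 2 ^ k T^k n` -/
theorem pow_mul_le (k n : ℕ) : 3 ^ odds k n * n ≤ 2 ^ k * T^[k] n := by
  induction k with
  | zero => simp [odds_zero]
  | succ k ih =>
    rw [odds_succ, Function.iterate_succ_apply']
    rcases Nat.mod_two_eq_zero_or_one (T^[k] n) with h | h
    · rw [h, add_zero]
      have h1 := T_even h
      calc 3 ^ odds k n * n ≤ 2 ^ k * T^[k] n := ih
        _ = 2 ^ k * (2 * T (T^[k] n)) := by rw [h1]
        _ = 2 ^ (k + 1) * T (T^[k] n) := by ring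
    · rw [h]
      have h1 := T_odd h
      calc 3 ^ (odds k n + 1) * n = 3 * (3 ^ odds k n * n) := by ring
        _ ≤ 3 * (2 ^ k * T^[k] n) := by omega
        _ ≤ 2 ^ k * (3 * T^[k] n + 1) := by nlinarith [Nat.zero_le (2 ^ k)]
        _ = 2 ^ k * (2 * T (T^[k] n)) := by rw [h1]
        _ = 2 ^ (k + 1) * T (T^[k] n) := by ring

theorem log_lower {n : ℕ} (hn : 1 ≤ n) (k : ℕ) :
    Real.log n + odds k n * Real.log 3 - k * Real.log 2 ≤ Real.log (T^[k] n : ℕ) := by
  have h := pow_mul_le k n
  have h' : (3 : ℝ) ^ odds k n * n ≤ 2 ^ k * (T^[k] n : ℕ) := by exact_mod_cast h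
  have hn0 : (0 : ℝ) < n := by exact_mod_cast hn
  have hk0 : (0 : ℝ) < (T^[k] n : ℕ) := by exact_mod_cast iter_pos hn k
  have h2 := Real.log_le_log (by positivity) h'
  rw [Real.log_mul (by positivity) hn0.ne', Real.log_mul (by positivity) hk0.ne', Real.log_pow, Real.log_pow] at h2
  linarith

/-- **Rigidity**, for natural numbers. -/
theorem log_upper : ∃ K : ℝ, 0 < K ∧ ∀ n k : ℕ, 1 ≤ n →
    (∀ i < k, ∀ j < k, T^[i] n = T^[j] n → i = j) → ∀ N : ℝ, 1 ≤ N → (∀ j < k, N ≤ (T^[j] n : ℕ)) →
      Real.log (T^[k] n : ℕ) ≤ Real.log n + odds k n * Real.log 3 - k * Real.log 2 + K * N ^ (-(49 / 1000) : ℝ) := by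
  obtain ⟨C, hC0, hC⟩ := Pool.Agent.H319R2.rigid (951 / 1000)
    (by have := Pool.Agent.H319R2.beta_lt; norm_num at this ⊢; exact this) (by norm_num)
  refine ⟨C, hC0, ?_⟩
  intro n k hn hinj N hN hmin
  have h := hC (n : ℤ) k (by exact_mod_cast (by omega : n ≠ 0)) (by
    intro i hi j hj hij
    simp only [T_cast] at hij
    exact hinj i hi j hj (by exact_mod_cast hij)) N hN (by
    intro j hj
    rw [T_cast]
    have := hmin j hj
    rw [Int.cast_natCast, abs_of_nonneg (by positivity)]
    exact this)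
  rw [T_cast, od_cast] at h
  rw [Int.cast_natCast, Int.cast_natCast, abs_of_nonneg (by positivity : (0 : ℝ) ≤ ((T^[k] n : ℕ) : ℝ)),
    abs_of_nonneg (by positivity : (0 : ℝ) ≤ (n : ℝ))] at h
  have h2 := (abs_le.1 h).2
  have e : (951 / 1000 : ℝ) - 1 = -(49 / 1000) := by norm_num
  rw [e] at h2
  linarith

/-- the terms before the first visit to `1` are pairwise different -/
theorem inj_of_least {f : ℕ → ℕ} {n k : ℕ} (h : IsLeast {j : ℕ | f^[j] n = 1} k) :
    ∀ i < k + 1, ∀ j < k + 1, f^[i] n = f^[j] n → i = j := by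
  have key : ∀ i j : ℕ, i < j → j ≤ k → f^[i] n ≠ f^[j] n := by
    intro i j hij hjk he
    have h1 : f^[k - j + i] n = 1 := by
      rw [Function.iterate_add_apply, he, ← Function.iterate_add_apply, show k - j + j = k by omega]
      exact h.1
    have := h.2 h1
    omega
  intro i hi j hj he
  rcases lt_trichotomy i j with h1 | h1 | h1
  · exact absurd he (key i j h1 (by omega))
  · exact h1
  · exact absurd he.symm (key j i h1 (by omega))

/-- the number of small terms -/
theorem few_small : ∃ A : ℝ, 0 < A ∧ ∀ n k : ℕ, 1 ≤ n →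
    (∀ i < k, ∀ j < k, T^[i] n = T^[j] n → i = j) → ∀ X : ℝ, 1 ≤ X →
      (((range k).filter fun j => ((T^[j] n : ℕ) : ℝ) ≤ X).card : ℝ) ≤ A * X ^ (951 / 1000 : ℝ) := by
  obtain ⟨C, hC0, hC⟩ := Pool.Agent.H319R2.orbit_sparse (951 / 1000)
    (by have := Pool.Agent.H319R2.beta_lt; norm_num at this ⊢; exact this)
  refine ⟨C, hC0, ?_⟩
  intro n k hn hinj X hX
  classical
  have h := hC (n : ℤ) X hX (((range k).filter fun j => ((T^[j] n : ℕ) : ℝ) ≤ X).image
    fun j => ((T^[j] n : ℕ) : ℤ)) (by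
    intro y hy
    rw [mem_image] at hy
    obtain ⟨j, hj, rfl⟩ := hy
    rw [mem_filter] at hj
    refine ⟨⟨j, T_cast j n⟩, ?_⟩
    rw [Int.cast_natCast, abs_of_nonneg (by positivity)]
    exact hj.2)
  rw [card_image_of_injOn] at h
  · exact h
  · intro i hi j hj hij
    have hi' := (mem_filter.1 hi).1
    have hj' := (mem_filter.1 hj).1
    have hij' : ((T^[i] n : ℕ) : ℤ) = ((T^[j] n : ℕ) : ℤ) := hij
    exact hinj i (mem_range.1 hi') j (mem_range.1 hj') (by exact_mod_cast hij')

end Pool.Agent.R469.Rig
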