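import Mathlib
import Pool.Agent.R469.Rig

set_option autoImplicit false

/-!
The sequence of the odd terms of a trajectory of the `3x+1` map and the sequence of the exponents.
-/

namespace Pool.Agent.R469.Eseq

open Finset Filter Topology Pool.Agent.R469.Rig

/-- one step on the odd integers: `3x+1` divided by the highest power of `2` -/
def S (x : ℕ) : ℕ := (3 * x + 1) / 2 ^ padicValNat 2 (3 * x + 1)

/-- the exponents: `e x n = a_(n+1)` -/
def e (x n : ℕ) : ℕ := padicValNat 2 (3 * S^[n] x + 1)

/-- the partial sums `b_n` -/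
def b (x n : ℕ) : ℕ := ∑ i ∈ range n, e x i

theorem odds_add (i j n : ℕ) : odds (i + j) n = odds i n + odds j (T^[i] n) := by
  induction j with
  | zero => simp [odds_zero]
  | succ j ih =>
    rw [← add_assoc, odds_succ, odds_succ, ih, add_comm i j, Function.iterate_add_apply]
    omega

theorem pow_step (j z : ℕ) : T^[j] (2 ^ j * z) = z ∧ odds j (2 ^ j * z) = 0 := by
  induction j with
  | zero => simp [odds_zero]
  | succ j ih =>
    have h1 : T (2 ^ (j + 1) * z) = 2 ^ j * z := by
      have := T_even (n := 2 ^ (j + 1) * z) (by rw [pow_succ, mul_comm (2 ^ j) 2, mul_assoc]; omega)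
      have h2 : 2 ^ (j + 1) * z = 2 * (2 ^ j * z) := by ring
      omega
    rw [Function.iterate_succ_apply, h1]
    refine ⟨ih.1, ?_⟩
    rw [add_comm j 1, odds_add, Function.iterate_one, ← add_comm j 1, h1, ih.2]
    have : odds 1 (2 ^ (j + 1) * z) = (2 ^ (j + 1) * z) % 2 := by
      have := odds_succ 0 (2 ^ (j + 1) * z)
      rw [odds_zero] at this
      simpa using this
    rw [this, pow_succ, mul_comm (2 ^ j) 2, mul_assoc]
    omega

/-- the exponent of an odd integer is positive, and the next term is odd -/
theorem step_odd {y : ℕ} (hy : y % 2 = 1) : 1 ≤ padicValNat 2 (3 * y + 1) ∧ S y % 2 = 1 ∧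
    2 ^ padicValNat 2 (3 * y + 1) * S y = 3 * y + 1 := by
  have hne : 3 * y + 1 ≠ 0 := by omega
  have h2 : (2 : ℕ) ^ padicValNat 2 (3 * y + 1) ∣ 3 * y + 1 := pow_padicValNat_dvd
  have h3 : 2 ^ padicValNat 2 (3 * y + 1) * S y = 3 * y + 1 := by
    unfold S; exact Nat.mul_div_cancel' h2
  refine ⟨?_, ?_, h3⟩
  · exact one_le_padicValNat_of_dvd hne (by omega)
  · by_contra hcon
    have h4 : 2 ∣ S y := by omega
    obtain ⟨z, hz⟩ := h4
    have h5 : 2 ^ (padicValNat 2 (3 * y + 1) + 1) ∣ 3 * y + 1 := ⟨z, by
      rw [← h3]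
      conv_lhs => rw [hz]
      conv_rhs => rw [pow_succ]
      have : padicValNat 2 (2 ^ padicValNat 2 (3 * y + 1) * S y) = padicValNat 2 (3 * y + 1) := by rw [h3]
      rw [this]
      ring⟩
    exact pow_succ_padicValNat_not_dvd hne h5

theorem T_step {y : ℕ} (hy : y % 2 = 1) : T^[padicValNat 2 (3 * y + 1)] y = S y ∧
    odds (padicValNat 2 (3 * y + 1)) y = 1 := by
  obtain ⟨h1, h2, h3⟩ := step_odd hy
  obtain ⟨a, ha⟩ : ∃ a, padicValNat 2 (3 * y + 1) = a + 1 := ⟨padicValNat 2 (3 * y + 1) - 1, by omega⟩
  rw [ha] at h3 ⊢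
  have h4 : T y = 2 ^ a * S y := by
    have := T_odd hy
    rw [pow_succ] at h3
    have : 2 ^ a * 2 * S y = 2 * (2 ^ a * S y) := by ring
    omega
  rw [Function.iterate_succ_apply, h4]
  refine ⟨(pow_step a (S y)).1, ?_⟩
  rw [add_comm a 1, odds_add, Function.iterate_one, h4, (pow_step a (S y)).2]
  have := odds_succ 0 y
  rw [odds_zero] at this
  simp only [zero_add, Function.iterate_zero, id_eq] at this
  omega

theorem S_iter_odd {x : ℕ} (hx : x % 2 = 1) (n : ℕ) : S^[n] x % 2 = 1 := by
  induction n with
  | zero => exact hx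
  | succ n ih => rw [Function.iterate_succ_apply']; exact (step_odd ih).2.1

/-- the link with the accelerated map -/
theorem link {x : ℕ} (hx : x % 2 = 1) (n : ℕ) : T^[b x n] x = S^[n] x ∧ odds (b x n) x = n := by
  induction n with
  | zero => simp [b, odds_zero]
  | succ n ih =>
    have hb : b x (n + 1) = b x n + e x n := by unfold b; rw [sum_range_succ]
    have h1 := T_step (S_iter_odd hx n)
    rw [hb, odds_add, add_comm (b x n), Function.iterate_add_apply, ih.1, ih.2,
      Function.iterate_succ_apply']
    unfold e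
    exact ⟨h1.1, by rw [h1.2]⟩

/-- if the trajectory of the accelerated map is not injective then two odd terms coincide -/
theorem inj_T {x : ℕ} (hx : x % 2 = 1) (hS : Function.Injective fun n => S^[n] x) :
    Function.Injective fun k => T^[k] x := by
  by_contra hcon
  unfold Function.Injective at hcon
  push Not at hcon
  obtain ⟨i, j, hij, hne⟩ := hcon
  have key : ∀ i j : ℕ, i < j → T^[i] x = T^[j] x → False := by
    intro i j hij he
    have hrep : ∀ k, ∃ l < j, T^[k] x = T^[l] x := by
      intro k
      induction k with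
      | zero => exact ⟨0, by omega, rfl⟩
      | succ k ih =>
        obtain ⟨l, hl, hk⟩ := ih
        rcases Nat.lt_or_ge (l + 1) j with h | h
        · exact ⟨l + 1, h, by rw [Function.iterate_succ_apply', Function.iterate_succ_apply', hk]⟩
        · have : l + 1 = j := by omega
          refine ⟨i, hij, ?_⟩
          have h2 : T^[k + 1] x = T^[l + 1] x := by
            rw [Function.iterate_succ_apply', Function.iterate_succ_apply', hk]
          rw [h2, this, he]
    have hfin : (Set.range fun n => S^[n] x).Finite := by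
      refine ((Finset.range j).image fun l => T^[l] x).finite_toSet.subset ?_
      rintro _ ⟨n, rfl⟩
      obtain ⟨l, hl, hk⟩ := hrep (b x n)
      rw [(link hx n).1] at hk
      simp only [coe_image, Set.mem_image, mem_coe, mem_range]
      exact ⟨l, hl, hk.symm⟩
    exact Set.infinite_range_of_injective hS hfin
  rcases lt_or_gt_of_ne hne with h | h
  · exact key i j h hij
  · exact key j i h hij.symm

end Pool.Agent.R469.Eseq
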