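import Mathlib

set_option autoImplicit false

/-! First hitting times of `1` of the Collatz map and of the accelerated map. -/

namespace Pool.Agent.R469.Steps

/-- the Collatz map -/
def C (n : ℕ) : ℕ := if n % 2 = 0 then n / 2 else 3 * n + 1

/-- the accelerated Collatz map -/
def T (n : ℕ) : ℕ := if n % 2 = 0 then n / 2 else (3 * n + 1) / 2

open Classical in
/-- the least `k ≥ 0` with `f^k(n) = 1`, and `⊤` if there is none -/
noncomputable def firstTime (f : ℕ → ℕ) (n : ℕ) : ℕ∞ :=
  if h : ∃ k : ℕ, f^[k] n = 1 then ((Nat.find h : ℕ) : ℕ∞) else ⊤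

lemma firstTime_ne_top {f : ℕ → ℕ} {n : ℕ} : firstTime f n ≠ ⊤ ↔ ∃ k : ℕ, f^[k] n = 1 := by
  unfold firstTime
  split_ifs with h
  · simp [h]
  · simp [h]

lemma firstTime_eq_iff {f : ℕ → ℕ} {n k : ℕ} :
    firstTime f n = k ↔ f^[k] n = 1 ∧ ∀ j < k, f^[j] n ≠ 1 := by
  classical
  unfold firstTime
  split_ifs with h
  · rw [Nat.cast_inj, Nat.find_eq_iff]
  · constructor
    · intro h'; exact absurd h'.symm (ENat.natCast_ne_top k)
    · rintro ⟨h', _⟩; exact absurd ⟨k, h'⟩ h

lemma firstTime_step (f : ℕ → ℕ) {n : ℕ} (hn : n ≠ 1) : firstTime f n = firstTime f (f n) + 1 := by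
  classical
  unfold firstTime
  have key : (∃ k, f^[k] n = 1) ↔ ∃ k, f^[k] (f n) = 1 := by
    constructor
    · rintro ⟨k, hk⟩
      rcases k with _ | k
      · exact absurd hk hn
      · exact ⟨k, by rwa [Function.iterate_succ_apply] at hk⟩
    · rintro ⟨k, hk⟩
      exact ⟨k + 1, by rwa [Function.iterate_succ_apply]⟩
  by_cases h : ∃ k, f^[k] n = 1
  · have h' := key.1 h
    rw [dif_pos h, dif_pos h']
    have h2 : ∃ k, f^[k + 1] n = 1 := by
      obtain ⟨k, hk⟩ := h'
      exact ⟨k, by rwa [Function.iterate_succ_apply]⟩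
    have h3 := Nat.find_comp_succ h h2 (by simpa using hn)
    rw [h3]
    have h4 : Nat.find h2 = Nat.find h' := by
      congr 1
    rw [h4]
    push_cast
    rfl
  · rw [dif_neg h, dif_neg (fun h' => h (key.2 h')), top_add]

/-- the number of odd terms among `n, T n, ..., T^(k-1) n` -/
def od (k n : ℕ) : ℕ := ((Finset.range k).filter fun i => T^[i] n % 2 = 1).card

lemma od_succ (k n : ℕ) : od (k + 1) n = od k n + if T^[k] n % 2 = 1 then 1 else 0 := by
  unfold od
  rw [Finset.range_add_one, Finset.filter_insert]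
  split_ifs with h
  · rw [Finset.card_insert_of_notMem (by simp)]
  · rfl

lemma T_pos {n : ℕ} (h : 1 ≤ n) : 1 ≤ T n := by
  unfold T; split_ifs <;> omega

lemma iter_pos {n : ℕ} (h : 1 ≤ n) (k : ℕ) : 1 ≤ T^[k] n := by
  induction k with
  | zero => exact h
  | succ k ih => rw [Function.iterate_succ_apply']; exact T_pos ih

/-- the size of the iterates -/
lemma size (k n : ℕ) : 3 ^ od k n * n ≤ 2 ^ k * T^[k] n ∧
    2 ^ k * T^[k] n + 3 ^ od k n ≤ 3 ^ od k n * (n + 2 ^ k) := by
  induction k with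
  | zero => simp [od]
  | succ k ih =>
    rw [od_succ, Function.iterate_succ_apply']
    generalize T^[k] n = m at ih ⊢
    unfold T
    split_ifs with h1 h2 h2
    · omega
    · have h3 : 2 ^ (k + 1) * ((3 * m + 1) / 2) = 3 * (2 ^ k * m) + 2 ^ k := by
        rw [pow_succ, mul_assoc, Nat.mul_div_cancel' (by omega)]; ring
      rw [h3, pow_succ, pow_succ 2 k]
      have h4 : 1 ≤ 3 ^ od k n := Nat.one_le_pow _ _ (by norm_num)
      constructor
      · nlinarith [ih.1]
      · nlinarith [ih.2, Nat.mul_le_mul_right (2 ^ k) h4]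
    · rw [add_zero]
      have h3 : 2 ^ (k + 1) * (m / 2) = 2 ^ k * m := by
        rw [pow_succ, mul_assoc, Nat.mul_div_cancel' (by omega)]
      rw [h3]
      refine ⟨ih.1, ih.2.trans ?_⟩
      have : 2 ^ k ≤ 2 ^ (k + 1) := Nat.pow_le_pow_right (by norm_num) (by omega)
      exact Nat.mul_le_mul_left _ (by omega)
    · omega

/-- two close numbers with the same iterate have the same number of odd terms before -/
lemma od_eq {t x y : ℕ} (hxy : x ≤ y) (hy : y + 2 ^ t ≤ 3 * x)
    (h : T^[t] x = T^[t] y) : od t x = od t y := by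
  have h1 := size t x
  have h2 := size t y
  rw [← h] at h2
  have p1 : 1 ≤ 3 ^ od t x := Nat.one_le_pow _ _ (by norm_num)
  have p2 : 1 ≤ 3 ^ od t y := Nat.one_le_pow _ _ (by norm_num)
  by_contra hne
  rcases Nat.lt_or_gt_of_ne hne with hlt | hlt
  · -- fewer odd terms for `x`
    have h3 : 3 ^ (od t x + 1) ≤ 3 ^ od t y := Nat.pow_le_pow_right (by norm_num) hlt
    have h4 : 3 ^ od t x * (3 * x) ≤ 3 ^ od t y * y := by
      calc 3 ^ od t x * (3 * x) = 3 ^ (od t x + 1) * x := by rw [pow_succ]; ring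
        _ ≤ 3 ^ od t y * y := Nat.mul_le_mul h3 hxy
    have h5 : 3 ^ od t x * (x + 2 ^ t) ≤ 3 ^ od t x * (3 * x) := Nat.mul_le_mul_left _ (by omega)
    omega
  · have h3 : 3 ^ (od t y + 1) ≤ 3 ^ od t x := Nat.pow_le_pow_right (by norm_num) hlt
    have h4 : 3 ^ od t y * (3 * x) ≤ 3 ^ od t x * x := by
      calc 3 ^ od t y * (3 * x) = 3 ^ (od t y + 1) * x := by rw [pow_succ]; ring
        _ ≤ 3 ^ od t x * x := Nat.mul_le_mul_right _ h3
    have h5 : 3 ^ od t y * (y + 2 ^ t) ≤ 3 ^ od t y * (3 * x) := Nat.mul_le_mul_left _ hy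
    omega

/-- the total stopping time after `t` steps -/
lemma time_T {t n : ℕ} (h : ∀ j < t, T^[j] n ≠ 1) :
    firstTime T n = firstTime T (T^[t] n) + t := by
  induction t with
  | zero => simp
  | succ t ih =>
    rw [ih fun j hj => h j (by omega), firstTime_step T (h t (by omega)),
      ← Function.iterate_succ_apply' T t n]
    push_cast
    rw [add_assoc, add_comm (1 : ℕ∞)]

/-- the height after `t` steps of the accelerated map -/
lemma time_C {t n : ℕ} (h : ∀ j < t, T^[j] n ≠ 1) :
    firstTime C n = firstTime C (T^[t] n) + (t + od t n : ℕ) := by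
  induction t with
  | zero => simp [od]
  | succ t ih =>
    rw [ih fun j hj => h j (by omega), od_succ, Function.iterate_succ_apply']
    have h1 := h t (by omega)
    generalize T^[t] n = m at h1 ⊢
    rw [firstTime_step C h1]
    by_cases hm : m % 2 = 1
    · have h2 : C m = 3 * m + 1 := by unfold C; rw [if_neg (by omega)]
      have h3 : C m ≠ 1 := by rw [h2]; omega
      rw [firstTime_step C h3]
      have h4 : C (C m) = T m := by
        rw [h2]
        unfold C T
        rw [if_pos (by omega), if_neg (by omega)]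
      rw [h4, if_pos hm]
      push_cast
      ring
    · have h2 : C m = T m := by
        unfold C T; rw [if_pos (by omega), if_pos (by omega)]
      rw [h2, if_neg hm]
      push_cast
      ring

/-- small times: no visit to `1` -/
lemma ne_one_of_large {t n : ℕ} (h : 2 ^ t ≤ n) : ∀ j < t, T^[j] n ≠ 1 := by
  intro j hj h1
  have h2 := (size j n).1
  rw [h1, mul_one] at h2
  have h3 : 1 ≤ 3 ^ od j n := Nat.one_le_pow _ _ (by norm_num)
  have h4 : n ≤ 2 ^ j := by nlinarith
  have h5 : 2 ^ j < 2 ^ t := Nat.pow_lt_pow_right (by norm_num) hj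
  omega

/-- **Equality of the times** of close numbers with the same iterate -/
lemma times_eq {t x y : ℕ} (hx : 2 ^ t ≤ x) (hxy : x ≤ y) (hy : y + 2 ^ t ≤ 3 * x)
    (h : T^[t] x = T^[t] y) :
    firstTime C y = firstTime C x ∧ firstTime T y = firstTime T x := by
  have h1 := od_eq hxy hy h
  have hy2 : 2 ^ t ≤ y := hx.trans hxy
  rw [time_C (ne_one_of_large hx), time_C (ne_one_of_large hy2), time_T (ne_one_of_large hx),
    time_T (ne_one_of_large hy2), h1, h]
  exact ⟨rfl, rfl⟩

/-- finiteness of the height is the same for both maps -/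
lemma reach_C_iff (n : ℕ) : (∃ k, C^[k] n = 1) ↔ ∃ k, C^[k] (C n) = 1 := by
  constructor
  · rintro ⟨k, hk⟩
    rcases k with _ | k
    · have h1 : n = 1 := hk
      subst h1
      exact ⟨2, by decide⟩
    · exact ⟨k, by rwa [Function.iterate_succ_apply] at hk⟩
  · rintro ⟨k, hk⟩
    exact ⟨k + 1, by rwa [Function.iterate_succ_apply]⟩

lemma reach_CT (n : ℕ) : (∃ k, C^[k] n = 1) ↔ ∃ k, C^[k] (T n) = 1 := by
  unfold T
  rcases Nat.mod_two_eq_zero_or_one n with h | h
  · rw [if_pos h, reach_C_iff n]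
    have : C n = n / 2 := by simp [C, h]
    rw [this]
  · rw [if_neg (by omega), reach_C_iff n, reach_C_iff (C n)]
    have h1 : C n = 3 * n + 1 := by simp [C, h]
    have h2 : C (3 * n + 1) = (3 * n + 1) / 2 := by
      unfold C; rw [if_pos (by omega)]
    rw [h1, h2]

end Pool.Agent.R469.Steps
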