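import Mathlib
import Pool.Agent.R469.Steps
import Pool.Agent.W38.CRh
import Pool.Agent.H499R2.HL.C

set_option autoImplicit false

/-! Runs of integers with equal heights and equal total stopping times. -/

namespace Pool.Agent.R469.Runs

open Filter Topology Pool.Agent.R469.Steps

/-- The length of the runs. -/
noncomputable def R (n : ℕ) : ℝ := Real.exp (√ (Real.log n) / (Real.log (Real.log n)) ^ 16)

/-- The positive integers with the property `P` have natural density `l`. -/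
def HasDensity (P : ℕ → Prop) (l : ℝ) : Prop :=
  Tendsto (fun N : ℕ => ({n : ℕ | 1 ≤ n ∧ n ≤ N ∧ P n}.ncard : ℝ) / N) atTop (𝓝 l)

theorem T_cast (t n : ℕ) : (Pool.Agent.H499R2.CO.Tz 1)^[t] (n : ℤ) = ((T^[t] n : ℕ) : ℤ) := by
  induction t generalizing n with
  | zero => rfl
  | succ t ih =>
    rw [Function.iterate_succ_apply, Function.iterate_succ_apply, ← ih]
    congr 1
    unfold Pool.Agent.H499R2.CO.Tz T
    rcases Nat.mod_two_eq_zero_or_one n with h | h
    · rw [if_pos (by omega), if_pos h]; omega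
    · rw [if_neg (by omega), if_neg (by omega)]; omega

/-- the size of `R` -/
theorem R_le {n : ℕ} (hn : 55 ≤ n) : R n ≤ √ n := by
  have hn' : (55 : ℝ) ≤ n := by exact_mod_cast hn
  have h0 : (0 : ℝ) < n := by linarith
  have h4 : 4 ≤ Real.log n := by
    rw [Real.le_log_iff_exp_le h0]
    have h1 : Real.exp 1 < 2.7182818286 := Real.exp_one_lt_d9
    have h2 : Real.exp 4 = Real.exp 1 ^ 4 := by rw [← Real.exp_nat_mul]; norm_num
    rw [h2]
    have h3 : Real.exp 1 ^ 4 ≤ 2.7182818286 ^ 4 :=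
      pow_le_pow_left₀ (Real.exp_pos 1).le h1.le 4
    have h5 : (2.7182818286 : ℝ) ^ 4 ≤ 55 := by norm_num
    linarith
  have hll : 1 ≤ Real.log (Real.log n) := by
    rw [Real.le_log_iff_exp_le (by linarith)]
    have h1 : Real.exp 1 < 2.7182818286 := Real.exp_one_lt_d9
    linarith
  have h6 : √ (Real.log n) / (Real.log (Real.log n)) ^ 16 ≤ √ (Real.log n) :=
    div_le_self (Real.sqrt_nonneg _) (one_le_pow₀ hll)
  have h7 : √ (Real.log n) ≤ Real.log n / 2 := by
    rw [Real.sqrt_le_left (by linarith)]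
    nlinarith
  have h8 : R n ≤ Real.exp (Real.log n / 2) := Real.exp_le_exp.2 (h6.trans h7)
  have h9 : Real.exp (Real.log n / 2) = √ n := by
    rw [Real.sqrt_eq_rpow, Real.rpow_def_of_pos h0]
    congr 1; ring
  rw [← h9]; exact h8

/-- for almost all `n` the run `n, ..., n + R n` has equal heights and total stopping times -/
theorem runs : HasDensity (fun n => ∀ h : ℕ, (h : ℝ) ≤ R n →
    firstTime C (n + h) = firstTime C n ∧ firstTime T (n + h) = firstTime T n) 1 := by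
  have h1 := Pool.Agent.H499R2.HL.HD_and Pool.Agent.W38.CR.fwd (Pool.Agent.H499R2.HL.HD_large 100)
  refine Pool.Agent.H499R2.CO.HD_congr h1 h1 fun n _ hE => ⟨fun _ => ?_, fun _ => hE⟩
  obtain ⟨⟨t, ht, hm⟩, hn⟩ := hE
  intro h hh
  have h2 := hm h hh
  rw [T_cast, show ((n : ℤ) + (h : ℤ)) = ((n + h : ℕ) : ℤ) by push_cast; rfl, T_cast] at h2
  have h3 : T^[t] n = T^[t] (n + h) := by exact_mod_cast h2.symm
  have h4 : 2 ^ t * 2 ^ t ≤ n := by
    rw [← mul_pow]; exact ht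
  have hn' : (55 : ℝ) ≤ n := by
    have : (100 : ℝ) ≤ n := by exact_mod_cast hn
    linarith
  have h5 : (h : ℝ) ≤ √ n := hh.trans (R_le (by omega))
  have h6 : (h : ℝ) * h ≤ n := by
    have := Real.mul_self_sqrt (show (0 : ℝ) ≤ n by linarith)
    nlinarith [Real.sqrt_nonneg (n : ℝ), (Nat.cast_nonneg h : (0 : ℝ) ≤ h)]
  have h7 : h * h ≤ n := by exact_mod_cast h6
  have h8 : 2 ^ t ≤ n := by nlinarith [Nat.one_le_two_pow (n := t)]
  have h9 : 4 * h ≤ 4 * 25 + n := by nlinarith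
  have h10 : 2 ^ t ≤ n := h8
  have h11 : h ≤ n := by nlinarith
  refine times_eq h8 (by omega) ?_ h3
  omega

theorem congrD {P Q : ℕ → Prop} {l : ℝ} (h : ∀ n, 1 ≤ n → (P n ↔ Q n)) (hP : HasDensity P l) :
    HasDensity Q l := by
  unfold HasDensity at *
  refine hP.congr (fun N => ?_)
  congr 3
  ext n
  simp only [Set.mem_ofPred_eq]
  constructor
  · rintro ⟨h1, h2, h3⟩; exact ⟨h1, h2, (h n h1).1 h3⟩
  · rintro ⟨h1, h2, h3⟩; exact ⟨h1, h2, (h n h1).2 h3⟩

/-- the density of the integers with finite height -/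
theorem dens : ∃ δ : ℝ, 0 < δ ∧ δ ≤ 1 ∧ (δ = 1 ↔ ∀ n : ℕ, 1 ≤ n → firstTime C n ≠ ⊤) ∧
    HasDensity (fun n => firstTime C n ≠ ⊤) δ ∧
    HasDensity (fun n => firstTime C n ≠ ⊤ ∧ ∀ h : ℕ, (h : ℝ) ≤ R n →
      firstTime C (n + h) = firstTime C n ∧ firstTime T (n + h) = firstTime T n) δ := by
  have hinv : ∀ n, 1 ≤ n → (firstTime C n ≠ ⊤ ↔ firstTime C (Pool.Agent.H499R2.ND.Tn n) ≠ ⊤) := by
    intro n _
    rw [firstTime_ne_top, firstTime_ne_top]
    exact reach_CT n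
  obtain ⟨l, _, hl1, h1, h2, h3⟩ := Pool.Agent.H499R2.ND.nat_density (P := fun n => firstTime C n ≠ ⊤) hinv
  have hone : firstTime C 1 ≠ ⊤ := by
    rw [firstTime_ne_top]
    exact ⟨0, rfl⟩
  refine ⟨l, h2.2 ⟨1, le_rfl, hone⟩, hl1, h3, h1, ?_⟩
  exact Pool.Agent.H499R2.CO.HD_congr runs h1 fun n _ hE => ⟨fun h => ⟨h, hE⟩, fun h => h.1⟩

/-- `R n → ∞` -/
theorem R_tendsto : Tendsto R atTop atTop := by
  unfold R
  refine Real.tendsto_exp_atTop.comp ?_
  have h1 : Tendsto (fun x : ℝ => √ x / (Real.log x) ^ 16) atTop atTop := by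
    have h2 : Tendsto (fun x : ℝ => x ^ (1 / 2 : ℝ) / (Real.log x) ^ (16 : ℝ)) atTop atTop :=
      by
        have h3 := (isLittleO_log_rpow_rpow_atTop (16 : ℝ) (show (0 : ℝ) < 1 / 2 by norm_num))
        have h4 : ∀ᶠ x : ℝ in atTop, 0 < (Real.log x) ^ (16 : ℝ) / x ^ (1 / 2 : ℝ) := by
          filter_upwards [eventually_gt_atTop 1] with x hx
          have := Real.log_pos hx
          have h0 : 0 < x := by linarith
          positivity
        have h5 : Tendsto (fun x : ℝ => (Real.log x) ^ (16 : ℝ) / x ^ (1 / 2 : ℝ)) atTop (𝓝 0) :=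
          h3.tendsto_div_nhds_zero
        have h6 : Tendsto (fun x : ℝ => (Real.log x) ^ (16 : ℝ) / x ^ (1 / 2 : ℝ)) atTop (𝓝[>] 0) :=
          tendsto_nhdsWithin_iff.2 ⟨h5, h4⟩
        have h7 := h6.inv_tendsto_nhdsGT_zero
        refine h7.congr fun x => ?_
        rw [Pi.inv_apply, inv_div]
    refine h2.congr' ?_
    filter_upwards [eventually_gt_atTop 1] with x hx
    rw [Real.sqrt_eq_rpow]
    congr 1
    rw [show (16 : ℝ) = ((16 : ℕ) : ℝ) by norm_num, Real.rpow_natCast]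
  exact h1.comp (Real.tendsto_log_atTop.comp tendsto_natCast_atTop_atTop)

/-- a set of positive density is infinite -/
theorem infinite_of_dens {P : ℕ → Prop} {l : ℝ} (hl : 0 < l) (h : HasDensity P l) :
    {n : ℕ | 1 ≤ n ∧ P n}.Infinite := by
  intro hfin
  have h1 : Tendsto (fun N : ℕ => ({n : ℕ | 1 ≤ n ∧ n ≤ N ∧ P n}.ncard : ℝ) / N) atTop (𝓝 0) := by
    have h2 : Tendsto (fun N : ℕ => ({n : ℕ | 1 ≤ n ∧ P n}.ncard : ℝ) / N) atTop (𝓝 0) :=
      tendsto_const_nhds.div_atTop tendsto_natCast_atTop_atTop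
    refine squeeze_zero (fun N => by positivity) (fun N => ?_) h2
    refine div_le_div_of_nonneg_right ?_ (Nat.cast_nonneg N)
    have h3 : {n : ℕ | 1 ≤ n ∧ n ≤ N ∧ P n} ⊆ {n : ℕ | 1 ≤ n ∧ P n} := by
      rintro n ⟨h1, _, h2⟩
      exact ⟨h1, h2⟩
    exact_mod_cast Set.ncard_le_ncard h3 hfin
  exact absurd (tendsto_nhds_unique h h1) hl.ne'

end Pool.Agent.R469.Runs
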